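import Pool.Agent.W536.XI.Stm

/-!
# XI-MOMA : first and second moment of the local mean square
-/

set_option autoImplicit false

open MeasureTheory Finset

namespace Pool.Agent.W475.XI.MOMA

open W536.XI

lemma int_cos (A B θ : ℝ) (hθ : θ ≠ 0) :
    |∫ y in A..B, Real.cos (y * θ)| ≤ 2 / |θ| := by
  rw [intervalIntegral.integral_comp_mul_right (fun x => Real.cos x) hθ, integral_cos,
    smul_eq_mul, abs_mul, abs_inv]
  have h1 : |Real.sin (B * θ) - Real.sin (A * θ)| ≤ 2 := by
    rw [abs_le]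
    constructor <;> linarith [Real.sin_le_one (B * θ), Real.sin_le_one (A * θ),
      Real.neg_one_le_sin (B * θ), Real.neg_one_le_sin (A * θ)]
  rw [div_eq_inv_mul]
  exact mul_le_mul_of_nonneg_left h1 (by positivity)

/-- the kernel -/
noncomputable def k (r θ : ℝ) : ℝ := ∫ x in (-r)..r, Real.cos (x * θ)

lemma k_neg (r θ : ℝ) : k r (-θ) = k r θ := by
  unfold k
  congr 1
  ext x
  rw [mul_neg, Real.cos_neg]

lemma k_zero (r : ℝ) : k r 0 = 2 * r := by
  unfold k
  simp
  ring

lemma k_abs {r : ℝ} (hr : 0 < r) (θ : ℝ) : |k r θ| ≤ 2 * r := by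
  unfold k
  have h : ‖∫ x in (-r)..r, Real.cos (x * θ)‖ ≤ 1 * |r - (-r)| := by
    apply intervalIntegral.norm_integral_le_of_norm_le_const
    intro x _
    exact Real.abs_cos_le_one _
  rw [Real.norm_eq_abs] at h
  refine h.trans ?_
  rw [abs_of_pos (by linarith)]
  linarith

lemma k_kk {r : ℝ} (hr : 0 < r) (θ : ℝ) : |k r θ| ≤ kk r θ := by
  unfold kk
  split_ifs with h
  · exact k_abs hr θ
  · exact le_min (k_abs hr θ) (int_cos _ _ θ h)

lemma k_sq {r : ℝ} (hr : 0 < r) (θ : ℝ) : k r θ * k r θ ≤ kk r θ ^ 2 := by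
  have h := k_kk hr θ
  have h2 : |k r θ| ^ 2 ≤ kk r θ ^ 2 := pow_le_pow_left₀ (abs_nonneg _) h 2
  rw [sq_abs] at h2
  nlinarith

lemma sin_zero (r θ : ℝ) : ∫ x in (-r)..r, Real.sin (x * θ) = 0 := by
  have h := intervalIntegral.integral_comp_neg (a := -r) (b := r) (fun x => Real.sin (x * θ))
  have h2 : ∀ x : ℝ, Real.sin (-x * θ) = - Real.sin (x * θ) := by
    intro x
    rw [neg_mul, Real.sin_neg]
  simp only [h2, neg_neg] at h
  rw [intervalIntegral.integral_neg] at h
  linarith

lemma shift (r y θ : ℝ) : ∫ x in (-r)..r, Real.cos ((y + x) * θ) = k r θ * Real.cos (y * θ) := by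
  have h1 : ∀ x : ℝ, Real.cos ((y + x) * θ) = Real.cos (x * θ) * Real.cos (y * θ) -
      Real.sin (x * θ) * Real.sin (y * θ) := by
    intro x
    rw [add_mul, Real.cos_add]
    ring
  simp only [h1]
  rw [intervalIntegral.integral_sub, intervalIntegral.integral_mul_const,
    intervalIntegral.integral_mul_const, sin_zero]
  · unfold k
    ring
  · apply Continuous.intervalIntegrable
    fun_prop
  · apply Continuous.intervalIntegrable
    fun_prop

/-- frequency -/
noncomputable def th (m n : ℕ) : ℝ := Real.log m - Real.log n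

lemma normP (M : ℕ) (a : ℕ → ℝ) (u : ℝ) : ‖P M a u‖ ^ 2 =
    ∑ m ∈ Icc 1 M, ∑ n ∈ Icc 1 M, a m * a n * Real.cos (u * th m n) := by
  have e : P M a u = ((∑ n ∈ Icc 1 M, a n * Real.cos (u * Real.log n) : ℝ) : ℂ) +
      ((-∑ n ∈ Icc 1 M, a n * Real.sin (u * Real.log n) : ℝ) : ℂ) * Complex.I := by
    unfold P
    push_cast
    rw [← Finset.sum_neg_distrib, Finset.sum_mul, ← Finset.sum_add_distrib]
    refine Finset.sum_congr rfl fun n _ => ?_
    have : -(Complex.I * (u : ℂ) * (Complex.log n)) =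
      -((u : ℂ) * (Complex.log n)) * Complex.I := by ring
    rw [this, Complex.exp_mul_I, Complex.cos_neg, Complex.sin_neg]
    ring
  rw [e, ← Complex.normSq_eq_norm_sq, Complex.normSq_add_mul_I, neg_sq, sq, sq,
    Finset.sum_mul_sum, Finset.sum_mul_sum, ← Finset.sum_add_distrib]
  refine Finset.sum_congr rfl fun m _ => ?_
  rw [← Finset.sum_add_distrib]
  refine Finset.sum_congr rfl fun n _ => ?_
  unfold th
  rw [mul_sub, Real.cos_sub]
  ring

lemma Q_eq (M : ℕ) (a : ℕ → ℝ) (r y : ℝ) : Q M a r y =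
    ∑ m ∈ Icc 1 M, ∑ n ∈ Icc 1 M, a m * a n * k r (th m n) * Real.cos (y * th m n) := by
  unfold Q
  simp only [normP]
  rw [intervalIntegral.integral_finset_sum]
  · refine Finset.sum_congr rfl fun m _ => ?_
    rw [intervalIntegral.integral_finset_sum]
    · refine Finset.sum_congr rfl fun n _ => ?_
      rw [intervalIntegral.integral_const_mul, shift]
      ring
    · intro n _
      apply Continuous.intervalIntegrable
      fun_prop
  · intro m _
    apply Continuous.intervalIntegrable
    fun_prop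

lemma th_neg (m n : ℕ) : th n m = - th m n := by
  unfold th
  ring

lemma S_eq (M : ℕ) (a : ℕ → ℝ) (r y : ℝ) :
    ∑ m ∈ Icc 1 M, ∑ n ∈ Icc 1 M, a m * a n * k r (th m n) * Real.sin (y * th m n) = 0 := by
  set S := ∑ m ∈ Icc 1 M, ∑ n ∈ Icc 1 M, a m * a n * k r (th m n) * Real.sin (y * th m n) with hS
  have h : S = -S := by
    conv_lhs => rw [hS, Finset.sum_comm]
    rw [hS, ← Finset.sum_neg_distrib]
    refine Finset.sum_congr rfl fun m _ => ?_
    rw [← Finset.sum_neg_distrib]
    refine Finset.sum_congr rfl fun n _ => ?_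
    rw [th_neg m n, k_neg, mul_neg, Real.sin_neg]
    ring
  linarith

/-- separation -/
lemma log_sep {m n : ℕ} (hm : 0 < m) (hn : 0 < n) (h : m ≠ n) {B : ℕ} (hB : m ≤ B) (hB' : n ≤ B) :
    1 / (B : ℝ) ≤ |Real.log m - Real.log n| := by
  wlog hlt : n < m generalizing m n with H
  · have := H hn hm h.symm hB' hB (lt_of_le_of_ne (not_lt.1 hlt) h)
    rwa [abs_sub_comm] at this
  have hm' : (0 : ℝ) < m := by exact_mod_cast hm
  have hn' : (0 : ℝ) < n := by exact_mod_cast hn
  have h1 : (n : ℝ) + 1 ≤ m := by exact_mod_cast hlt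
  rw [← Real.log_div hm'.ne' hn'.ne']
  have h2 := Real.one_sub_inv_le_log_of_pos (div_pos hm' hn')
  refine le_trans ?_ (le_abs_self _)
  refine le_trans ?_ h2
  rw [inv_div]
  have h3 : 1 / (B : ℝ) ≤ 1 / m := by
    apply one_div_le_one_div_of_le hm'
    exact_mod_cast hB
  refine h3.trans ?_
  rw [le_sub_iff_add_le, ← add_div, div_le_one hm']
  linarith

lemma bd_cos {M : ℕ} {m n : ℕ} (hm : m ∈ Icc 1 M) (hn : n ∈ Icc 1 M) (h : m ≠ n) (A B : ℝ) :
    |∫ y in A..B, Real.cos (y * th m n)| ≤ 2 * M := by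
  rw [Finset.mem_Icc] at hm hn
  have h1 := log_sep (by omega) (by omega) h hm.2 hn.2
  have hM : (0 : ℝ) < M := by
    have : 0 < M := by omega
    exact_mod_cast this
  have h0 : 0 < |th m n| := lt_of_lt_of_le (by positivity) h1
  refine (int_cos A B (th m n) (abs_pos.1 h0)).trans ?_
  rw [div_le_iff₀ h0]
  have h2 : 1 ≤ (M : ℝ) * |th m n| := by
    have := mul_le_mul_of_nonneg_left h1 hM.le
    rwa [mul_one_div_cancel hM.ne'] at this
  linarith

lemma bd_cos2 {M : ℕ} {m n m' n' : ℕ} (hm : m ∈ Icc 1 M) (hn : n ∈ Icc 1 M) (hm' : m' ∈ Icc 1 M)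
    (hn' : n' ∈ Icc 1 M) (h : m * m' ≠ n * n') (A B : ℝ) :
    |∫ y in A..B, Real.cos (y * (th m n + th m' n'))| ≤ 2 * M ^ 2 := by
  rw [Finset.mem_Icc] at hm hn hm' hn'
  have p1 : 0 < m * m' := Nat.mul_pos (by omega) (by omega)
  have p2 : 0 < n * n' := Nat.mul_pos (by omega) (by omega)
  have h1 := log_sep p1 p2 h (Nat.mul_le_mul hm.2 hm'.2) (Nat.mul_le_mul hn.2 hn'.2)
  have hM : (0 : ℝ) < M := by
    have : 0 < M := by omega
    exact_mod_cast this
  have q1 : (m : ℝ) ≠ 0 := by
    have : m ≠ 0 := by omega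
    exact_mod_cast this
  have q2 : (n : ℝ) ≠ 0 := by
    have : n ≠ 0 := by omega
    exact_mod_cast this
  have q3 : (m' : ℝ) ≠ 0 := by
    have : m' ≠ 0 := by omega
    exact_mod_cast this
  have q4 : (n' : ℝ) ≠ 0 := by
    have : n' ≠ 0 := by omega
    exact_mod_cast this
  have e : th m n + th m' n' = Real.log ((m * m' : ℕ) : ℝ) - Real.log ((n * n' : ℕ) : ℝ) := by
    push_cast
    rw [Real.log_mul q1 q3, Real.log_mul q2 q4]
    unfold th
    ring
  rw [← e] at h1
  have hMM : (0 : ℝ) < ((M * M : ℕ) : ℝ) := by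
    push_cast
    positivity
  have h0 : 0 < |th m n + th m' n'| := lt_of_lt_of_le (by positivity) h1
  refine (int_cos A B _ (abs_pos.1 h0)).trans ?_
  rw [div_le_iff₀ h0]
  have h2 : 1 ≤ (((M * M : ℕ) : ℝ)) * |th m n + th m' n'| := by
    have := mul_le_mul_of_nonneg_left h1 hMM.le
    rwa [mul_one_div_cancel hMM.ne'] at this
  push_cast at h2
  nlinarith

lemma th_zero {m n m' n' M : ℕ} (hm : m ∈ Icc 1 M) (hn : n ∈ Icc 1 M) (hm' : m' ∈ Icc 1 M)
    (hn' : n' ∈ Icc 1 M) (h : m * m' = n * n') : th m' n' = - th m n := by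
  rw [Finset.mem_Icc] at hm hn hm' hn'
  have q1 : (m : ℝ) ≠ 0 := by
    have : m ≠ 0 := by omega
    exact_mod_cast this
  have q2 : (n : ℝ) ≠ 0 := by
    have : n ≠ 0 := by omega
    exact_mod_cast this
  have q3 : (m' : ℝ) ≠ 0 := by
    have : m' ≠ 0 := by omega
    exact_mod_cast this
  have q4 : (n' : ℝ) ≠ 0 := by
    have : n' ≠ 0 := by omega
    exact_mod_cast this
  have e : Real.log ((m * m' : ℕ) : ℝ) = Real.log ((n * n' : ℕ) : ℝ) := by rw [h]
  push_cast at e
  rw [Real.log_mul q1 q3, Real.log_mul q2 q4] at e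
  unfold th
  linarith

lemma Qsq (M : ℕ) (a : ℕ → ℝ) (r y : ℝ) : Q M a r y ^ 2 =
    ∑ m ∈ Icc 1 M, ∑ n ∈ Icc 1 M, ∑ m' ∈ Icc 1 M, ∑ n' ∈ Icc 1 M,
      a m * a n * a m' * a n' * (k r (th m n) * k r (th m' n')) *
        Real.cos (y * (th m n + th m' n')) := by
  have h1 : Q M a r y ^ 2 = Q M a r y * Q M a r y -
      (∑ m ∈ Icc 1 M, ∑ n ∈ Icc 1 M, a m * a n * k r (th m n) * Real.sin (y * th m n)) *
      (∑ m ∈ Icc 1 M, ∑ n ∈ Icc 1 M, a m * a n * k r (th m n) * Real.sin (y * th m n)) := by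
    rw [S_eq]
    ring
  rw [h1, Q_eq, Finset.sum_mul, Finset.sum_mul, ← Finset.sum_sub_distrib]
  refine Finset.sum_congr rfl fun m _ => ?_
  rw [Finset.sum_mul, Finset.sum_mul, ← Finset.sum_sub_distrib]
  refine Finset.sum_congr rfl fun n _ => ?_
  rw [Finset.mul_sum, Finset.mul_sum, ← Finset.sum_sub_distrib]
  refine Finset.sum_congr rfl fun m' _ => ?_
  rw [Finset.mul_sum, Finset.mul_sum, ← Finset.sum_sub_distrib]
  refine Finset.sum_congr rfl fun n' _ => ?_
  rw [mul_add, Real.cos_add]
  ring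

/-- **XI-MOMA** -/
theorem moma : S_MOMA := by
  intro M a r T ha hr hT hM
  constructor
  · have e1 : (∫ y in T..(2 * T), Q M a r y) = ∑ m ∈ Icc 1 M, ∑ n ∈ Icc 1 M,
        a m * a n * k r (th m n) * ∫ y in T..(2 * T), Real.cos (y * th m n) := by
      simp only [Q_eq]
      rw [intervalIntegral.integral_finset_sum]
      · refine Finset.sum_congr rfl fun m _ => ?_
        rw [intervalIntegral.integral_finset_sum]
        · refine Finset.sum_congr rfl fun n _ => ?_
          rw [intervalIntegral.integral_const_mul]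
        · intro n _
          apply Continuous.intervalIntegrable
          fun_prop
      · intro m _
        apply Continuous.intervalIntegrable
        fun_prop
    rw [e1]
    have e2 : 2 * r * T * (∑ n ∈ Icc 1 M, a n ^ 2) - 8 * r * M * (∑ n ∈ Icc 1 M, a n) ^ 2 =
        ∑ m ∈ Icc 1 M, ∑ n ∈ Icc 1 M, ((if m = n then 2 * r * T * (a m * a n) else 0) -
          8 * r * M * (a m * a n)) := by
      have e3 : (∑ n ∈ Icc 1 M, a n) ^ 2 = ∑ m ∈ Icc 1 M, ∑ n ∈ Icc 1 M, a m * a n := by
        rw [sq, Finset.sum_mul_sum]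
      rw [e3, Finset.mul_sum, Finset.mul_sum, ← Finset.sum_sub_distrib]
      refine Finset.sum_congr rfl fun m hm => ?_
      rw [Finset.sum_sub_distrib, Finset.sum_ite_eq, if_pos hm, Finset.mul_sum]
      ring
    rw [e2]
    refine Finset.sum_le_sum fun m hm => Finset.sum_le_sum fun n hn => ?_
    have hMr : (0 : ℝ) ≤ M := Nat.cast_nonneg _
    have haa : 0 ≤ a m * a n := mul_nonneg (ha m) (ha n)
    split_ifs with h
    · subst h
      have : th m m = 0 := by unfold th; ring
      rw [this, k_zero]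
      simp only [mul_zero, Real.cos_zero]
      rw [intervalIntegral.integral_const, smul_eq_mul]
      have : 0 ≤ 8 * r * M * (a m * a m) := by positivity
      nlinarith
    · have h1 := bd_cos hm hn h T (2 * T)
      have h2 := k_abs hr (th m n)
      have h3 : |k r (th m n) * ∫ y in T..(2 * T), Real.cos (y * th m n)| ≤ 2 * r * (2 * M) := by
        rw [abs_mul]
        gcongr
      have h4 := (abs_le.1 h3).1
      have h5 : 0 ≤ r * M := by positivity
      have h6 : -(8 * r * M) ≤ k r (th m n) * ∫ y in T..(2 * T), Real.cos (y * th m n) := by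
        linarith
      have h7 := mul_le_mul_of_nonneg_left h6 haa
      linarith
  · have e1 : (∫ y in T..(2 * T), Q M a r y ^ 2) =
        ∑ m ∈ Icc 1 M, ∑ n ∈ Icc 1 M, ∑ m' ∈ Icc 1 M, ∑ n' ∈ Icc 1 M,
          a m * a n * a m' * a n' * (k r (th m n) * k r (th m' n')) *
          ∫ y in T..(2 * T), Real.cos (y * (th m n + th m' n')) := by
      simp only [Qsq]
      rw [intervalIntegral.integral_finset_sum]
      · refine Finset.sum_congr rfl fun m _ => ?_
        rw [intervalIntegral.integral_finset_sum]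
        · refine Finset.sum_congr rfl fun n _ => ?_
          rw [intervalIntegral.integral_finset_sum]
          · refine Finset.sum_congr rfl fun m' _ => ?_
            rw [intervalIntegral.integral_finset_sum]
            · refine Finset.sum_congr rfl fun n' _ => ?_
              rw [intervalIntegral.integral_const_mul]
            · intro n _
              apply Continuous.intervalIntegrable
              fun_prop
          · intro n _
            apply Continuous.intervalIntegrable
            fun_prop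
        · intro n _
          apply Continuous.intervalIntegrable
          fun_prop
      · intro m _
        apply Continuous.intervalIntegrable
        fun_prop
    rw [e1]
    have e2 : T * quad M a r + 32 * r ^ 2 * M ^ 2 * (∑ n ∈ Icc 1 M, a n) ^ 4 =
        ∑ m ∈ Icc 1 M, ∑ n ∈ Icc 1 M, ∑ m' ∈ Icc 1 M, ∑ n' ∈ Icc 1 M,
          (T * (if m * m' = n * n' then a m * a n * a m' * a n' * kk r (Real.log m - Real.log n) ^ 2
            else 0) + 32 * r ^ 2 * M ^ 2 * (a m * a n * a m' * a n')) := by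
      have e3 : (∑ n ∈ Icc 1 M, a n) ^ 4 = ∑ m ∈ Icc 1 M, ∑ n ∈ Icc 1 M, ∑ m' ∈ Icc 1 M,
          ∑ n' ∈ Icc 1 M, a m * a n * a m' * a n' := by
        have : (∑ n ∈ Icc 1 M, a n) ^ 4 = ((∑ n ∈ Icc 1 M, a n) * (∑ n ∈ Icc 1 M, a n)) *
          ((∑ n ∈ Icc 1 M, a n) * (∑ n ∈ Icc 1 M, a n)) := by ring
        rw [this, Finset.sum_mul_sum, Finset.sum_mul]
        refine Finset.sum_congr rfl fun m _ => ?_
        rw [Finset.sum_mul]
        refine Finset.sum_congr rfl fun n _ => ?_
        rw [Finset.mul_sum]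
        refine Finset.sum_congr rfl fun m' _ => ?_
        rw [Finset.mul_sum]
        refine Finset.sum_congr rfl fun n' _ => ?_
        ring
      rw [e3]
      unfold quad
      simp only [Finset.mul_sum, Finset.sum_add_distrib]
    rw [e2]
    refine Finset.sum_le_sum fun m hm => Finset.sum_le_sum fun n hn =>
      Finset.sum_le_sum fun m' hm' => Finset.sum_le_sum fun n' hn' => ?_
    have hMr : (0 : ℝ) ≤ M := Nat.cast_nonneg _
    have haa : 0 ≤ a m * a n * a m' * a n' :=
      mul_nonneg (mul_nonneg (mul_nonneg (ha m) (ha n)) (ha m')) (ha n')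
    split_ifs with h
    · have h1 := th_zero hm hn hm' hn' h
      rw [h1, k_neg, add_neg_cancel]
      simp only [mul_zero, Real.cos_zero]
      rw [intervalIntegral.integral_const, smul_eq_mul]
      have h2 := k_sq hr (th m n)
      have h3 : 0 ≤ 32 * r ^ 2 * M ^ 2 * (a m * a n * a m' * a n') := by positivity
      have h4 := mul_le_mul_of_nonneg_left h2 haa
      have h5 := mul_le_mul_of_nonneg_left h4 hT.le
      have e4 : kk r (Real.log m - Real.log n) = kk r (th m n) := rfl
      rw [e4]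
      calc a m * a n * a m' * a n' * (k r (th m n) * k r (th m n)) * ((2 * T - T) * 1)
          = T * (a m * a n * a m' * a n' * (k r (th m n) * k r (th m n))) := by ring
        _ ≤ _ := by linarith
    · have h1 := bd_cos2 hm hn hm' hn' h T (2 * T)
      have h2 := k_abs hr (th m n)
      have h2' := k_abs hr (th m' n')
      have h3 : |k r (th m n) * k r (th m' n') *
          ∫ y in T..(2 * T), Real.cos (y * (th m n + th m' n'))| ≤
            (2 * r) * (2 * r) * (2 * M ^ 2) := by
        rw [abs_mul, abs_mul]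
        gcongr
      have h4 := (abs_le.1 h3).2
      have h5 : 0 ≤ r ^ 2 * (M : ℝ) ^ 2 := by positivity
      have h6 : k r (th m n) * k r (th m' n') *
          (∫ y in T..(2 * T), Real.cos (y * (th m n + th m' n'))) ≤ 32 * r ^ 2 * M ^ 2 := by
        nlinarith
      have h7 := mul_le_mul_of_nonneg_left h6 haa
      linarith

end Pool.Agent.W475.XI.MOMA
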